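import Pool.Agent.W2helper74.SOS.Stm

/-!
# Piece J6 of the SOS conjecture (`MP_ce7760_an`): the bound for linear syzygies (`F4`)
-/

set_option autoImplicit false

open MvPolynomial

namespace Pool.Agent.W2helper18.SOS

open Pool.Agent.W2helper74.SOS

/-- the vector of the values of the `e i` at `x` -/
noncomputable def evv {n r : ℕ} (e : Fin r → Pol n) (x : Fin n → ℂ) : Fin r → ℂ :=
  fun i => eval x (e i)

lemma eval_lin {n r : ℕ} (e : Fin r → Pol n) (c : Fin r → ℂ) (x : Fin n → ℂ) :
    eval x (∑ i, c i • e i) = ∑ i, c i * eval x (e i) := by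
  rw [map_sum]
  exact Finset.sum_congr rfl fun i _ => by rw [smul_eval]

lemma zero_of_vanish {n r : ℕ} {e : Fin r → Pol n} (he : LinearIndependent ℂ e)
    (c : Fin r → ℂ) (h : ∀ x, ∑ i, c i * eval x (e i) = 0) : c = 0 := by
  have h2 : ∑ i, c i • e i = 0 := by
    apply MvPolynomial.funext
    intro x
    rw [eval_lin, h x, map_zero]
  funext i
  exact Fintype.linearIndependent_iff.1 he c h2 i

lemma span_evv {n r : ℕ} {e : Fin r → Pol n} (he : LinearIndependent ℂ e) :
    Submodule.span ℂ (Set.range (evv e)) = ⊤ := by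
  by_contra h
  obtain ⟨f, hf0, hf⟩ := Submodule.exists_le_ker_of_lt_top _ (lt_top_iff_ne_top.2 h)
  apply hf0
  have h1 : (fun i => f (fun j => if i = j then 1 else 0)) = 0 := by
    apply zero_of_vanish he
    intro x
    have h3 : f (evv e x) = 0 := hf (Submodule.subset_span ⟨x, rfl⟩)
    rw [LinearMap.pi_apply_eq_sum_univ f (evv e x)] at h3
    refine (Finset.sum_congr rfl fun i _ => ?_).trans h3
    rw [smul_eq_mul, mul_comm]
    rfl
  refine LinearMap.ext fun v => ?_
  rw [LinearMap.zero_apply, LinearMap.pi_apply_eq_sum_univ f]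
  exact Finset.sum_eq_zero fun i _ => by rw [congrFun h1 i]; simp

lemma exists_pts {n r : ℕ} {e : Fin r → Pol n} (he : LinearIndependent ℂ e) :
    ∃ x : Fin r → (Fin n → ℂ), ∀ c : Fin r → ℂ,
      (∀ l, ∑ i, c i * eval (x l) (e i) = 0) → c = 0 := by
  have hN : Module.finrank ℂ (Submodule.span ℂ (Set.range (evv e))) = r := by
    rw [span_evv he, finrank_top, Module.finrank_fin_fun]
  have h1 := Submodule.exists_fun_fin_finrank_span_eq ℂ (Set.range (evv e))
  rw [hN] at h1
  obtain ⟨f, hf1, hf2, -⟩ := h1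
  choose x hx using hf1
  refine ⟨x, fun c hc => ?_⟩
  apply zero_of_vanish he
  intro y
  have h2 : evv e y ∈ Submodule.span ℂ (Set.range f) := by
    rw [hf2]
    exact Submodule.subset_span ⟨y, rfl⟩
  let L : (Fin r → ℂ) →ₗ[ℂ] ℂ := Fintype.linearCombination ℂ c
  have hL : ∀ v, L v = ∑ i, c i * v i := by
    intro v
    simp only [L, Fintype.linearCombination_apply, smul_eq_mul]
    exact Finset.sum_congr rfl fun i _ => mul_comm _ _
  have h3 : Submodule.span ℂ (Set.range f) ≤ LinearMap.ker L := by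
    rw [Submodule.span_le]
    rintro _ ⟨l, rfl⟩
    rw [SetLike.mem_coe, LinearMap.mem_ker, hL, ← hx l]
    exact hc l
  have h4 := h3 h2
  rw [LinearMap.mem_ker, hL] at h4
  exact h4

/-- the value at `y` of the element of the span of the `e i` attached to `z` -/
noncomputable def SS {n r : ℕ} (e : Fin r → Pol n) (σ : Fin n × Fin r → ℂ) (z y : Fin n → ℂ) : ℂ :=
  ∑ q : Fin n × Fin r, σ q * z q.1 * eval y (e q.2)

lemma SS_eq {n r : ℕ} (e : Fin r → Pol n) (σ : Fin n × Fin r → ℂ) (z y : Fin n → ℂ) :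
    SS e σ z y = ∑ j, (∑ k, σ (k, j) * z k) * eval y (e j) := by
  unfold SS
  rw [Fintype.sum_prod_type, Finset.sum_comm]
  exact Finset.sum_congr rfl fun j _ => by rw [Finset.sum_mul]

lemma SS_add {n r : ℕ} (e : Fin r → Pol n) (σ σ' : Fin n × Fin r → ℂ) (z y : Fin n → ℂ) :
    SS e (σ + σ') z y = SS e σ z y + SS e σ' z y := by
  unfold SS
  rw [← Finset.sum_add_distrib]
  exact Finset.sum_congr rfl fun q _ => by rw [Pi.add_apply]; ring

lemma SS_smul {n r : ℕ} (e : Fin r → Pol n) (c : ℂ) (σ : Fin n × Fin r → ℂ) (z y : Fin n → ℂ) :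
    SS e (c • σ) z y = c * SS e σ z y := by
  unfold SS
  rw [Finset.mul_sum]
  exact Finset.sum_congr rfl fun q _ => by rw [Pi.smul_apply, smul_eq_mul]; ring

lemma SS_line {n r : ℕ} (e : Fin r → Pol n) (σ : Fin n × Fin r → ℂ) (x v y : Fin n → ℂ) (t : ℂ) :
    SS e σ (x + t • v) y = SS e σ x y + t * SS e σ v y := by
  unfold SS
  rw [Finset.mul_sum, ← Finset.sum_add_distrib]
  exact Finset.sum_congr rfl fun q _ => by
    rw [Pi.add_apply, Pi.smul_apply, smul_eq_mul]; ring

/-- linear syzygies -/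
noncomputable def Syz {n r : ℕ} (e : Fin r → Pol n) : Submodule ℂ (Fin n × Fin r → ℂ) where
  carrier := {σ | ∀ z, SS e σ z z = 0}
  add_mem' := fun {a b} ha hb z => by rw [SS_add, ha z, hb z, add_zero]
  zero_mem' := fun z => by simp [SS]
  smul_mem' := fun c a ha z => by rw [SS_smul, ha z, mul_zero]

lemma syz_zero {n r : ℕ} {e : Fin r → Pol n} (x : Fin r → (Fin n → ℂ))
    (hx : ∀ c : Fin r → ℂ, (∀ l, ∑ i, c i * eval (x l) (e i) = 0) → c = 0)
    (σ : Fin n × Fin r → ℂ) (hσ : ∀ z, SS e σ z z = 0)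
    (h : ∀ i l : Fin r, i < l → SS e σ (x i) (x l) = 0) : σ = 0 := by
  -- all values
  have key : ∀ i : Fin r, ∀ v, SS e σ v (x i) = 0 := by
    intro i
    induction i using WellFoundedLT.induction with
    | ind i ih =>
      intro v
      have h1 : ∀ l, SS e σ (x i) (x l) = 0 := by
        intro l
        rcases lt_trichotomy l i with h2 | h2 | h2
        · exact ih l h2 _
        · rw [h2]; exact hσ _
        · exact h i l h2
      have h3 : ∀ y, SS e σ (x i) y = 0 := by
        intro y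
        have h4 : (fun j => ∑ k, σ (k, j) * x i k) = 0 := by
          apply hx
          intro l
          rw [← h1 l, SS_eq]
        rw [SS_eq]
        exact Finset.sum_eq_zero fun j _ => by rw [congrFun h4 j]; simp
      have h5 : ∀ t : ℂ, t ≠ 0 → SS e σ v (x i + t • v) = 0 := by
        intro t ht
        have h6 := hσ (x i + t • v)
        rw [SS_line, h3, zero_add] at h6
        exact (mul_eq_zero.1 h6).resolve_left ht
      have hc : Continuous (fun t : ℂ => SS e σ v (x i + t • v)) := by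
        unfold SS
        refine continuous_finsetSum _ fun q _ => continuous_const.mul ?_
        exact (MvPolynomial.continuous_eval (e q.2)).comp
          (continuous_const.add (continuous_id.smul continuous_const))
      have h7 : (fun t : ℂ => SS e σ v (x i + t • v)) = fun _ => 0 := by
        apply Continuous.ext_on (dense_compl_singleton (0 : ℂ)) hc continuous_const
        intro t ht
        exact h5 t ht
      have h8 := congrFun h7 0
      simp only [zero_smul, add_zero] at h8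
      exact h8
  funext q
  obtain ⟨k, j⟩ := q
  have h4 : (fun j => ∑ k', σ (k', j) * (Pi.single k (1 : ℂ) : Fin n → ℂ) k') = 0 := by
    apply hx
    intro l
    rw [← key l (Pi.single k (1 : ℂ)), SS_eq]
  have h5 := congrFun h4 j
  simpa [Pi.single_apply] using h5

lemma finrank_syz {n r : ℕ} {e : Fin r → Pol n} (he : LinearIndependent ℂ e) :
    Module.finrank ℂ (Syz e) ≤ r * (r - 1) / 2 := by
  obtain ⟨x, hx⟩ := exists_pts he
  let φ : Syz e →ₗ[ℂ] ((Σ l : Fin r, Fin l.1) → ℂ) :=
    { toFun := fun σ q => SS e σ.1 (x ⟨q.2.1, q.2.2.trans q.1.2⟩) (x q.1)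
      map_add' := fun σ σ' => by funext q; exact SS_add _ _ _ _ _
      map_smul' := fun c σ => by funext q; exact SS_smul _ _ _ _ _ }
  have hφ : Function.Injective φ := by
    rw [← LinearMap.ker_eq_bot, LinearMap.ker_eq_bot']
    intro σ hσ
    apply Subtype.ext
    apply syz_zero x hx σ.1 σ.2
    intro i l hil
    exact congrFun hσ ⟨l, ⟨i.1, hil⟩⟩
  refine (LinearMap.finrank_le_finrank_of_injective hφ).trans (le_of_eq ?_)
  rw [Module.finrank_fintype_fun_eq_card, Fintype.card_sigma]
  simp only [Fintype.card_fin]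
  rw [Fin.sum_univ_eq_sum_range (fun i => i) r, Finset.sum_range_id]

/-- the tensor `z ⊗ e(z)` -/
noncomputable def tens {n r : ℕ} (e : Fin r → Pol n) (z : Fin n → ℂ) : Fin n × Fin r → ℂ :=
  fun q => z q.1 * eval z (e q.2)

lemma mem_span_tens {n r : ℕ} (e : Fin r → Pol n) (τ : Fin n × Fin r → ℂ)
    (h : ∀ σ ∈ Syz e, ∑ q, σ q * τ q = 0) : τ ∈ Submodule.span ℂ (Set.range (tens e)) := by
  by_contra hn
  obtain ⟨f, hf0, hf⟩ := Submodule.exists_le_ker_of_notMem hn
  apply hf0
  have h1 : ∀ ξ : Fin n × Fin r → ℂ, f ξ = ∑ q, f (fun j => if q = j then 1 else 0) * ξ q := by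
    intro ξ
    rw [LinearMap.pi_apply_eq_sum_univ f ξ]
    exact Finset.sum_congr rfl fun q _ => by rw [smul_eq_mul, mul_comm]
  rw [h1]
  apply h
  intro z
  have h2 : f (tens e z) = 0 := hf (Submodule.subset_span ⟨z, rfl⟩)
  rw [h1] at h2
  refine Eq.trans ?_ h2
  unfold SS tens
  exact Finset.sum_congr rfl fun q _ => by ring

/-- the hermitian form on tensors -/
noncomputable def BB {n r : ℕ} (a : Matrix (Fin r) (Fin r) ℂ) (ξ η : Fin n × Fin r → ℂ) : ℂ :=
  ∑ k, ∑ i, ∑ l, a i l * ξ (k, i) * star (η (k, l))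

lemma BB_add_left {n r : ℕ} (a : Matrix (Fin r) (Fin r) ℂ) (ξ ξ' η : Fin n × Fin r → ℂ) :
    BB a (ξ + ξ') η = BB a ξ η + BB a ξ' η := by
  simp only [BB, Pi.add_apply, mul_add, add_mul, Finset.sum_add_distrib]

lemma BB_smul_left {n r : ℕ} (a : Matrix (Fin r) (Fin r) ℂ) (c : ℂ) (ξ η : Fin n × Fin r → ℂ) :
    BB a (c • ξ) η = c * BB a ξ η := by
  simp only [BB, Pi.smul_apply, smul_eq_mul, Finset.mul_sum]
  exact Finset.sum_congr rfl fun k _ => Finset.sum_congr rfl fun i _ =>
    Finset.sum_congr rfl fun l _ => by ring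

lemma BB_add_right {n r : ℕ} (a : Matrix (Fin r) (Fin r) ℂ) (ξ η η' : Fin n × Fin r → ℂ) :
    BB a ξ (η + η') = BB a ξ η + BB a ξ η' := by
  simp only [BB, Pi.add_apply, star_add, mul_add, Finset.sum_add_distrib]

lemma BB_smul_right {n r : ℕ} (a : Matrix (Fin r) (Fin r) ℂ) (c : ℂ) (ξ η : Fin n × Fin r → ℂ) :
    BB a ξ (c • η) = star c * BB a ξ η := by
  simp only [BB, Pi.smul_apply, smul_eq_mul, Finset.mul_sum, star_mul']
  exact Finset.sum_congr rfl fun k _ => Finset.sum_congr rfl fun i _ =>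
    Finset.sum_congr rfl fun l _ => by ring

lemma BB_zero_left {n r : ℕ} (a : Matrix (Fin r) (Fin r) ℂ) (η : Fin n × Fin r → ℂ) :
    BB a 0 η = 0 := by
  simp [BB]

lemma BB_zero_right {n r : ℕ} (a : Matrix (Fin r) (Fin r) ℂ) (η : Fin n × Fin r → ℂ) :
    BB a η 0 = 0 := by
  simp [BB]

lemma BB_sum_left {n r : ℕ} {ι : Type*} (a : Matrix (Fin r) (Fin r) ℂ) (s : Finset ι) (c : ι → ℂ)
    (τ : ι → Fin n × Fin r → ℂ) (η : Fin n × Fin r → ℂ) :
    BB a (∑ z ∈ s, c z • τ z) η = ∑ z ∈ s, c z * BB a (τ z) η := by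
  classical
  induction s using Finset.induction_on with
  | empty => simp [BB_zero_left]
  | insert z s hz ih => rw [Finset.sum_insert hz, Finset.sum_insert hz, BB_add_left, BB_smul_left, ih]

lemma BB_sum_right {n r : ℕ} {ι : Type*} (a : Matrix (Fin r) (Fin r) ℂ) (s : Finset ι) (c : ι → ℂ)
    (τ : ι → Fin n × Fin r → ℂ) (η : Fin n × Fin r → ℂ) :
    BB a η (∑ z ∈ s, c z • τ z) = ∑ z ∈ s, star (c z) * BB a η (τ z) := by
  classical
  induction s using Finset.induction_on with
  | empty => simp [BB_zero_right]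
  | insert z s hz ih =>
    rw [Finset.sum_insert hz, Finset.sum_insert hz, BB_add_right, BB_smul_right, ih]

lemma BB_tens {n m r D : ℕ} (d : Dat n m r D) (z w : Fin n → ℂ) :
    BB d.a (tens d.e z) (tens d.e w) = ∑ j, eval z (d.p j) * star (eval w (d.p j)) := by
  rw [d.main z w, Finset.sum_mul]
  unfold BB tens
  refine Finset.sum_congr rfl fun k _ => ?_
  rw [Finset.mul_sum]
  refine Finset.sum_congr rfl fun i _ => ?_
  rw [Finset.mul_sum]
  refine Finset.sum_congr rfl fun l _ => ?_
  rw [star_mul']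
  ring

lemma BB_nonneg {n m r D : ℕ} (d : Dat n m r D) (τ : Fin n × Fin r → ℂ)
    (h : τ ∈ Submodule.span ℂ (Set.range (tens d.e))) : 0 ≤ (BB d.a τ τ).re := by
  rw [Finsupp.mem_span_range_iff_exists_finsupp] at h
  obtain ⟨c, hc⟩ := h
  have h1 : BB d.a τ τ = ∑ j, (∑ z ∈ c.support, c z * eval z (d.p j)) *
      star (∑ z ∈ c.support, c z * eval z (d.p j)) := by
    rw [← hc]
    unfold Finsupp.sum
    rw [BB_sum_left]
    have h2 : ∀ z ∈ c.support, c z * BB d.a (tens d.e z) (∑ w ∈ c.support, c w • tens d.e w) =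
        ∑ w ∈ c.support, ∑ j, (c z * eval z (d.p j)) * star (c w * eval w (d.p j)) := by
      intro z _
      rw [BB_sum_right, Finset.mul_sum]
      refine Finset.sum_congr rfl fun w _ => ?_
      rw [BB_tens, Finset.mul_sum, Finset.mul_sum]
      refine Finset.sum_congr rfl fun j _ => ?_
      rw [star_mul']
      ring
    rw [Finset.sum_congr rfl h2]
    have h3 : ∀ z ∈ c.support, ∑ w ∈ c.support, ∑ j,
        (c z * eval z (d.p j)) * star (c w * eval w (d.p j)) =
        ∑ j, ∑ w ∈ c.support, (c z * eval z (d.p j)) * star (c w * eval w (d.p j)) := by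
      intro z _
      rw [Finset.sum_comm]
    rw [Finset.sum_congr rfl h3, Finset.sum_comm]
    refine Finset.sum_congr rfl fun j _ => ?_
    rw [star_sum, Finset.sum_mul_sum]
  rw [h1, Complex.re_sum]
  refine Finset.sum_nonneg fun j _ => ?_
  rw [Complex.star_def, Complex.mul_conj, Complex.ofReal_re]
  exact Complex.normSq_nonneg _

lemma BB_pure {n r : ℕ} (a : Matrix (Fin r) (Fin r) ℂ) (v : Fin n → ℂ) (x : Fin r → ℂ) :
    BB a (fun q : Fin n × Fin r => v q.1 * x q.2) (fun q => v q.1 * x q.2) =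
      ((∑ k, Complex.normSq (v k) : ℝ) : ℂ) * ∑ i, ∑ l, a i l * x i * star (x l) := by
  unfold BB
  rw [Complex.ofReal_sum, Finset.sum_mul]
  refine Finset.sum_congr rfl fun k _ => ?_
  rw [Finset.mul_sum]
  refine Finset.sum_congr rfl fun i _ => ?_
  rw [Finset.mul_sum]
  refine Finset.sum_congr rfl fun l _ => ?_
  rw [star_mul', ← Complex.mul_conj, Complex.star_def]
  ring

/-- Piece J6. -/
theorem f4 : F4 := by
  intro n m r D d hpsd
  by_contra hn
  rw [not_le] at hn
  unfold Dat.Psd at hpsd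
  push Not at hpsd
  obtain ⟨x, hx⟩ := hpsd
  let ψ : (Fin n → ℂ) →ₗ[ℂ] (Module.Dual ℂ (Syz d.e)) :=
    LinearMap.mk₂ ℂ (fun v (σ : Syz d.e) => ∑ q : Fin n × Fin r, σ.1 q * (v q.1 * x q.2))
      (fun v v' σ => by
        rw [← Finset.sum_add_distrib]
        exact Finset.sum_congr rfl fun q _ => by rw [Pi.add_apply]; ring)
      (fun c v σ => by
        rw [smul_eq_mul, Finset.mul_sum]
        exact Finset.sum_congr rfl fun q _ => by rw [Pi.smul_apply, smul_eq_mul]; ring)
      (fun v σ σ' => by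
        rw [← Finset.sum_add_distrib]
        exact Finset.sum_congr rfl fun q _ => by
          rw [Submodule.coe_add, Pi.add_apply]; ring)
      (fun c v σ => by
        rw [smul_eq_mul, Finset.mul_sum]
        exact Finset.sum_congr rfl fun q _ => by
          rw [Submodule.coe_smul, Pi.smul_apply, smul_eq_mul]; ring)
  have hker : LinearMap.ker ψ ≠ ⊥ := by
    apply LinearMap.ker_ne_bot_of_finrank_lt
    rw [Subspace.dual_finrank_eq, Module.finrank_fin_fun]
    exact lt_of_le_of_lt (finrank_syz d.e_ind) hn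
  obtain ⟨v, hv, hv0⟩ := Submodule.exists_mem_ne_zero_of_ne_bot hker
  have hmem : (fun q : Fin n × Fin r => v q.1 * x q.2) ∈
      Submodule.span ℂ (Set.range (tens d.e)) := by
    apply mem_span_tens
    intro σ hσ
    have h1 : ψ v = 0 := hv
    have h2 := congrArg (fun f : Module.Dual ℂ (Syz d.e) => f ⟨σ, hσ⟩) h1
    exact h2
  have h3 := BB_nonneg d _ hmem
  rw [BB_pure, Complex.re_ofReal_mul] at h3
  have hpos : 0 < ∑ k, Complex.normSq (v k) := by
    by_contra hle
    have h4 : ∑ k, Complex.normSq (v k) = 0 :=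
      le_antisymm (not_lt.1 hle) (Finset.sum_nonneg fun k _ => Complex.normSq_nonneg _)
    apply hv0
    funext k
    have h5 := (Finset.sum_eq_zero_iff_of_nonneg
      (fun k _ => Complex.normSq_nonneg (v k))).1 h4 k (Finset.mem_univ k)
    exact Complex.normSq_eq_zero.1 h5
  exact absurd h3 (not_le.2 (mul_neg_of_pos_of_neg hpos hx))

end Pool.Agent.W2helper18.SOS
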