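import Pool.Agent.W2helper74.SOS.Stm

/-!
# Piece J9 of the SOS conjecture (`MP_ce7760_an`): arithmetic (`Num`, `Num'`)
-/

set_option autoImplicit false

namespace Pool.Agent.W2helper18.SOS

open Pool.Agent.W2helper74.SOS

lemma tri (κ t : ℕ) :
    2 * ∑ i ∈ Finset.range t, (κ - 1 - i) + (κ - t) * (κ - t - 1) = κ * (κ - 1) := by
  induction t with
  | zero => simp
  | succ t ih =>
    rw [Finset.sum_range_succ, ← ih]
    obtain hu | hu | ⟨v, hv⟩ : κ - t = 0 ∨ κ - t = 1 ∨ ∃ v, κ - t = v + 2 := by
      rcases h : κ - t with _ | _ | v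
      · exact Or.inl rfl
      · exact Or.inr (Or.inl rfl)
      · exact Or.inr (Or.inr ⟨v, rfl⟩)
    · have h1 : κ - 1 - t = 0 := by omega
      have h2 : κ - (t + 1) = 0 := by omega
      rw [h1, h2, hu]
      simp
    · have h1 : κ - 1 - t = 0 := by omega
      have h2 : κ - (t + 1) = 0 := by omega
      rw [h1, h2, hu]
      simp
    · have h1 : κ - 1 - t = v + 1 := by omega
      have h2 : κ - (t + 1) = v + 1 := by omega
      rw [h1, h2, hv]
      have h3 : v + 1 - 1 = v := by omega
      have h4 : v + 2 - 1 = v + 1 := by omega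
      rw [h3, h4]
      ring

lemma tri_le (κ t : ℕ) :
    2 * ∑ i ∈ Finset.range t, (κ - 1 - i) ≤ κ * (κ - 1) := by
  have := tri κ t
  omega

theorem num : Pool.Agent.W2helper74.SOS.Num := by
  intro n κ M hn hκ hmono hM1 h1 h2 h3 h4 h5
  -- differences
  obtain ⟨D, hD⟩ : ∃ D : ℕ → ℕ, ∀ i, M (i + 1) = M i + D i :=
    ⟨fun i => M (i + 1) - M i, fun i => by have := hmono i; simp only; omega⟩
  have hDs : ∀ i, M (i + 1) - M i = D i := fun i => by rw [hD i]; omega
  have h1' : ∀ i, i + 2 ≤ n → min (D (i + 1)) (i + 1) ≤ D i := by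
    intro i hi
    have := h1 (i + 1) (by omega) (by omega)
    rwa [hDs (i + 1), Nat.add_sub_cancel, hDs i] at this
  have h2' : ∀ i, 1 ≤ i → i + 2 ≤ n → D (i + 1) ≤ i + 1 → D (i + 1) ≤ κ + 1 →
      D (i + 1) ≠ D i := by
    intro i hi1 hi
    have := h2 (i + 1) (by omega) (by omega)
    rwa [hDs (i + 1), Nat.add_sub_cancel, hDs i] at this
  have h3' : ∀ i, 1 ≤ i → i + 2 ≤ n → i + 2 ≤ D (i + 1) → i + 2 ≤ D i := by
    intro i hi1 hi
    have := h3 (i + 1) (by omega) (by omega)
    rwa [hDs (i + 1), Nat.add_sub_cancel, hDs i] at this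
  have step : ∀ i, 1 ≤ i → i + 2 ≤ n → min (min (i + 2) (κ + 2)) (D (i + 1) + 1) ≤ D i := by
    intro i hi1 hi
    have a1 := h1' i hi
    have a2 := h2' i hi1 hi
    have a3 := h3' i hi1 hi
    by_cases c1 : i + 2 ≤ D (i + 1)
    · have := a3 c1; omega
    · by_cases c2 : D (i + 1) ≤ κ + 1
      · have := a2 (by omega) c2; omega
      · omega
  obtain ⟨N, rfl⟩ : ∃ N, n = N + 2 := ⟨n - 2, by omega⟩
  have e1 : N + 2 - 1 = N + 1 := by omega
  have e2 : N + 2 - 2 = N := by omega
  rw [e1] at h4
  rw [e2] at h5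
  have hMn : M (N + 2) = M (N + 1) + D (N + 1) := hD (N + 1)
  have hMn1 : M (N + 1) = M N + D N := hD N
  have hDn : 1 ≤ D (N + 1) := by omega
  -- first pass
  have pass1 : ∀ k i, i + k = N + 1 → 1 ≤ i →
      min (min (i + 2) (κ + 2)) (k + 1) ≤ D i := by
    intro k
    induction k with
    | zero =>
      intro i hi _
      have : i = N + 1 := by omega
      rw [this]
      omega
    | succ k ih =>
      intro i hi hi1
      have a := ih (i + 1) (by omega) (by omega)
      have b := step i hi1 (by omega)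
      omega
  have hD1 : 1 ≤ D 0 ∨ 1 ≤ M 0 := by
    have := hD 0
    rw [zero_add] at this
    omega
  -- second pass
  have pass2 : ∀ k i, i + k = N → 1 ≤ i →
      min (min (i + 2) (κ + 2)) (k + 3) ≤ D i := by
    rcases Nat.eq_zero_or_pos κ with hκ0 | hκ0
    · intro k i hi hi1
      have := pass1 (k + 1) i (by omega) hi1
      omega
    · have hD1' := pass1 N 1 (by omega) le_rfl
      have hM2 : M 2 = M 1 + D 1 := hD 1
      have hs := step N (by omega) (by omega)
      have hDN : 3 ≤ D N := by omega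
      intro k
      induction k with
      | zero =>
        intro i hi _
        have : i = N := by omega
        rw [this]
        omega
      | succ k ih =>
        intro i hi hi1
        have a := ih (i + 1) (by omega) (by omega)
        have b := step i hi1 (by omega)
        omega
  -- sum
  have hsum : ∀ t, t ≤ N → (κ + 2) * t ≤ (M (t + 1) - M 1) +
      ∑ i ∈ Finset.range t, ((κ - 1 - i) + (κ - 1 - (N - 1 - i))) := by
    intro t
    induction t with
    | zero => intro _; simp
    | succ t ih =>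
      intro ht
      have a := ih (by omega)
      have b := pass2 (N - (t + 1)) (t + 1) (by omega) (by omega)
      have c := hD (t + 1)
      have hmon : M 1 ≤ M (t + 1) := by
        have : Monotone M := monotone_nat_of_le_succ hmono
        exact this (by omega)
      rw [Finset.sum_range_succ, Nat.mul_succ, c]
      omega
  have hS := hsum N le_rfl
  rw [Finset.sum_add_distrib] at hS
  have hrefl : ∑ i ∈ Finset.range N, (κ - 1 - (N - 1 - i)) =
      ∑ i ∈ Finset.range N, (κ - 1 - i) :=
    Finset.sum_range_reflect (fun i => κ - 1 - i) N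
  rw [hrefl] at hS
  have ht := tri_le κ N
  have hmon1 : M 1 ≤ M (N + 1) := by
    have : Monotone M := monotone_nat_of_le_succ hmono
    exact this (by omega)
  have hfin : (κ + 2) * N + 2 ≤ M (N + 2) + κ * (κ - 1) := by omega
  obtain ⟨u, hu⟩ : ∃ u, N + 2 = κ + u := ⟨N + 2 - κ, by omega⟩
  have e3 : N + 2 + 1 - κ = u + 1 := by omega
  rw [e3]
  rcases Nat.eq_zero_or_pos κ with hκ0 | hκ0
  · subst hκ0
    simp only [zero_add, zero_mul] at *
    omega
  · obtain ⟨v, rfl⟩ : ∃ v, κ = v + 1 := ⟨κ - 1, by omega⟩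
    rw [Nat.add_sub_cancel] at hfin
    have : (v + 1 + 2) * N + (v + 1 + 2) * 2 = (v + 1 + 2) * (v + 1 + u) := by
      rw [← hu]; ring
    nlinarith

theorem num' : Num' := by
  intro n κ M hn hmono h1 h2
  obtain ⟨D, hD⟩ : ∃ D : ℕ → ℕ, ∀ i, M (i + 1) = M i + D i :=
    ⟨fun i => M (i + 1) - M i, fun i => by have := hmono i; simp only; omega⟩
  have hDs : ∀ i, M (i + 1) - M i = D i := fun i => by rw [hD i]; omega
  have h1' : ∀ i, i + 2 ≤ n → min (D (i + 1)) (i + 1) ≤ D i := by
    intro i hi
    have := h1 (i + 1) (by omega) (by omega)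
    rwa [hDs (i + 1), Nat.add_sub_cancel, hDs i] at this
  obtain ⟨N, rfl⟩ : ∃ N, n = N + 1 := ⟨n - 1, by omega⟩
  rw [Nat.add_sub_cancel, hDs] at h2
  have pass : ∀ k i, i + k = N → min (i + 1) (κ + 1) ≤ D i := by
    intro k
    induction k with
    | zero =>
      intro i hi
      have : i = N := by omega
      rw [this]
      omega
    | succ k ih =>
      intro i hi
      have a := ih (i + 1) (by omega)
      have b := h1' i (by omega)
      omega
  have hsum : ∀ t, t ≤ N + 1 → (κ + 1) * t ≤ M t + ∑ i ∈ Finset.range t, ((κ + 1) - 1 - i) := by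
    intro t
    induction t with
    | zero => intro _; simp
    | succ t ih =>
      intro ht
      have a := ih (by omega)
      have b := pass (N - t) t (by omega)
      have c := hD t
      rw [Finset.sum_range_succ, Nat.mul_succ, c]
      omega
  have hS := hsum (N + 1) le_rfl
  have ht := tri_le (κ + 1) (N + 1)
  have e : (κ + 1) * (κ + 1 - 1) = κ * (κ + 1) := by rw [Nat.add_sub_cancel, mul_comm]
  rw [e] at ht
  omega

end Pool.Agent.W2helper18.SOS
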