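import Pool.Agent.W2helper74.SOS.Stm
import Pool.Agent.H402R2.CE.All

/-!
# Piece J9 of the SOS conjecture (`MP_ce7760_an`): the constructive side (`Con`)
-/

set_option autoImplicit false

open MvPolynomial

namespace Pool.Agent.W2helper18.SOS

open Pool.Agent.W2helper74.SOS

/-- exponents as finitely supported functions -/
noncomputable def fs {n : ℕ} (γ : Fin n → ℕ) : Fin n →₀ ℕ := Finsupp.equivFunOnFinite.symm γ

lemma fs_inj {n : ℕ} : Function.Injective (fs (n := n)) := Finsupp.equivFunOnFinite.symm.injective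

lemma fs_add {n : ℕ} (γ : Fin n → ℕ) (i : Fin n) :
    Finsupp.single i 1 + fs γ = fs (γ + Pi.single i 1) := by
  ext j
  simp only [fs, Finsupp.coe_add, Pi.add_apply, Finsupp.equivFunOnFinite_symm_apply_apply]
  rw [add_comm]
  congr 1
  rw [Finsupp.single_apply, Pi.single_apply]
  simp only [eq_comm]

/-- the exponents of `(∑ X_i) * ∑_(γ ∈ G) X^γ` -/
def shift {n : ℕ} (G : Finset (Fin n → ℕ)) : Finset (Fin n → ℕ) :=
  (G ×ˢ Finset.univ).image (fun p => p.1 + Pi.single p.2 1)

/-- `(∑ X_i) * ∑_(γ ∈ G) X^γ` -/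
noncomputable def ff {n : ℕ} (G : Finset (Fin n → ℕ)) : MvPolynomial (Fin n) ℝ :=
  ∑ p ∈ G ×ˢ (Finset.univ : Finset (Fin n)), monomial (fs (p.1 + Pi.single p.2 1)) (1 : ℝ)

lemma coeff_ff {n : ℕ} (G : Finset (Fin n → ℕ)) (δ : Fin n →₀ ℕ) :
    coeff δ (ff G) = ∑ p ∈ G ×ˢ (Finset.univ : Finset (Fin n)),
      if fs (p.1 + Pi.single p.2 1) = δ then (1 : ℝ) else 0 := by
  unfold ff
  rw [coeff_sum]
  exact Finset.sum_congr rfl fun p _ => by rw [coeff_monomial]

lemma ff_eq {n : ℕ} (G : Finset (Fin n → ℕ)) :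
    ff G = (∑ i : Fin n, X i) ^ 1 * ∑ γ ∈ G, monomial (fs γ) (1 : ℝ) := by
  rw [pow_one, Finset.sum_mul_sum, Finset.sum_comm, ← Finset.sum_product']
  unfold ff
  refine Finset.sum_congr rfl fun p _ => ?_
  rw [X, monomial_mul, one_mul, fs_add]

lemma shift_mem {n : ℕ} (G : Finset (Fin n → ℕ)) : (shift G).card ∈ S1 n := by
  have h1 : (ff G).support = (shift G).image fs := by
    ext δ
    rw [mem_support_iff, coeff_ff]
    unfold shift
    rw [Finset.image_image, Finset.mem_image]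
    constructor
    · intro h
      obtain ⟨p, hp, hp2⟩ := Finset.exists_ne_zero_of_sum_ne_zero h
      refine ⟨p, hp, ?_⟩
      by_contra hc
      exact hp2 (if_neg hc)
    · rintro ⟨p, hp, rfl⟩
      apply ne_of_gt
      apply Finset.sum_pos'
      · intro q _
        split_ifs
        · exact zero_le_one
        · exact le_rfl
      · exact ⟨p, hp, by rw [Function.comp_apply, if_pos rfl]; exact one_pos⟩
  have h2 : (ff G).support.card = (shift G).card := by
    rw [h1, Finset.card_image_of_injective _ fs_inj]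
  rw [← h2]
  apply H402.CE.t5 1 n (ff G)
  · intro α
    rw [coeff_ff]
    apply Finset.sum_nonneg
    intro q _
    split_ifs
    · exact zero_le_one
    · exact le_rfl
  · exact ⟨_, ff_eq G⟩

lemma zero_mem (n : ℕ) : 0 ∈ S1 n := by
  refine ⟨Fin.elim0, linearIndependent_empty_type, 0, fun z => ?_⟩
  simp

lemma add_mem {n : ℕ} (hn : 1 ≤ n) {a b : ℕ} (ha : a ∈ S1 n) (hb : b ∈ S1 n) : a + b ∈ S1 n :=
  H402.CE.t4 1 n a b hn ha hb

lemma self_mem {n : ℕ} (hn : 1 ≤ n) : n ∈ S1 n := by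
  have h := H402.CE.all6a 1 n hn
  rwa [Nat.add_sub_cancel, Nat.choose_one_right] at h

lemma two_mem {n : ℕ} (hn : 2 ≤ n) : 2 * n - 1 ∈ S1 n := by
  have h := H402.CE.all6b 1 n 0 hn one_pos
  rwa [Nat.add_sub_cancel, Nat.choose_one_right, Nat.choose_zero_right] at h

lemma from_block {n : ℕ} (hn : 1 ≤ n) (c : ℕ) (h : ∀ m, c ≤ m → m < c + n → m ∈ S1 n) :
    ∀ m, c ≤ m → m ∈ S1 n := by
  intro m
  induction m using Nat.strong_induction_on with
  | _ m ih =>
    intro hm
    by_cases h1 : m < c + n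
    · exact h m hm h1
    · have h2 : m = (m - n) + n := by omega
      rw [h2]
      exact add_mem hn (ih (m - n) (by omega) (by omega)) (self_mem hn)

lemma seven : 7 ∈ S1 3 := by
  have h := shift_mem ({![1, 1, 0], ![0, 1, 1], ![1, 0, 1]} : Finset (Fin 3 → ℕ))
  have e : (shift ({![1, 1, 0], ![0, 1, 1], ![1, 0, 1]} : Finset (Fin 3 → ℕ))).card = 7 := by
    decide +kernel
  rwa [e] at h

lemma nine : 9 ∈ S1 4 := by
  have h := shift_mem ({![1, 0, 0, 0], ![0, 1, 0, 0], ![0, 0, 1, 0]} : Finset (Fin 4 → ℕ))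
  have e : (shift ({![1, 0, 0, 0], ![0, 1, 0, 0], ![0, 0, 1, 0]} :
      Finset (Fin 4 → ℕ))).card = 9 := by
    decide +kernel
  rwa [e] at h

lemma ten : 10 ∈ S1 4 := by
  have h := shift_mem ({![1, 1, 0, 0], ![0, 1, 1, 0], ![1, 0, 1, 0]} : Finset (Fin 4 → ℕ))
  have e : (shift ({![1, 1, 0, 0], ![0, 1, 1, 0], ![1, 0, 1, 0]} :
      Finset (Fin 4 → ℕ))).card = 10 := by
    decide +kernel
  rwa [e] at h

lemma twelve : 12 ∈ S1 5 := by
  have h := shift_mem ({![1, 0, 0, 0, 0], ![0, 1, 0, 0, 0], ![0, 0, 1, 0, 0]} :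
    Finset (Fin 5 → ℕ))
  have e : (shift ({![1, 0, 0, 0, 0], ![0, 1, 0, 0, 0], ![0, 0, 1, 0, 0]} :
      Finset (Fin 5 → ℕ))).card = 12 := by
    decide +kernel
  rwa [e] at h

lemma thirteen : 13 ∈ S1 5 := by
  have h := shift_mem ({![1, 1, 0, 0, 0], ![0, 1, 1, 0, 0], ![1, 0, 1, 0, 0]} :
    Finset (Fin 5 → ℕ))
  have e : (shift ({![1, 1, 0, 0, 0], ![0, 1, 1, 0, 0], ![1, 0, 1, 0, 0]} :
      Finset (Fin 5 → ℕ))).card = 13 := by
    decide +kernel
  rwa [e] at h

lemma sixteen : 16 ∈ S1 5 := by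
  have h := shift_mem ({![2, 0, 0, 0, 0], ![1, 1, 0, 0, 0], ![1, 0, 1, 0, 0], ![0, 2, 0, 0, 0]} :
    Finset (Fin 5 → ℕ))
  have e : (shift ({![2, 0, 0, 0, 0], ![1, 1, 0, 0, 0], ![1, 0, 1, 0, 0], ![0, 2, 0, 0, 0]} :
      Finset (Fin 5 → ℕ))).card = 16 := by
    decide +kernel
  rwa [e] at h

theorem con : Con := by
  refine ⟨?_, ?_, ?_, ?_, ?_⟩
  · intro m
    exact from_block le_rfl 0 (fun m _ h2 => by
      have : m = 0 := by omega
      rw [this]; exact zero_mem 1) m (Nat.zero_le m)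
  · rintro m (rfl | hm)
    · exact zero_mem 2
    · refine from_block (by norm_num) 2 (fun m h1 h2 => ?_) m hm
      obtain rfl | rfl : m = 2 ∨ m = 3 := by omega
      · exact self_mem (by norm_num)
      · exact two_mem le_rfl
  · rintro m (rfl | rfl | hm)
    · exact zero_mem 3
    · exact self_mem (by norm_num)
    · refine from_block (by norm_num) 5 (fun m h1 h2 => ?_) m hm
      obtain rfl | rfl | rfl : m = 5 ∨ m = 3 + 3 ∨ m = 7 := by omega
      · exact two_mem (n := 3) (by norm_num)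
      · exact add_mem (by norm_num) (self_mem (by norm_num)) (self_mem (by norm_num))
      · exact seven
  · rintro m (rfl | rfl | hm)
    · exact zero_mem 4
    · exact self_mem (by norm_num)
    · refine from_block (by norm_num) 7 (fun m h1 h2 => ?_) m hm
      obtain rfl | rfl | rfl | rfl : m = 7 ∨ m = 4 + 4 ∨ m = 9 ∨ m = 10 := by omega
      · exact two_mem (n := 4) (by norm_num)
      · exact add_mem (by norm_num) (self_mem (by norm_num)) (self_mem (by norm_num))
      · exact nine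
      · exact ten
  · rintro m (rfl | rfl | rfl | rfl | hm)
    · exact zero_mem 5
    · exact self_mem (by norm_num)
    · exact two_mem (n := 5) (by norm_num)
    · exact add_mem (n := 5) (a := 5) (b := 5) (by norm_num) (self_mem (by norm_num))
        (self_mem (by norm_num))
    · refine from_block (by norm_num) 12 (fun m h1 h2 => ?_) m hm
      obtain rfl | rfl | rfl | rfl | rfl : m = 12 ∨ m = 13 ∨ m = 5 + 9 ∨ m = 5 + (5 + 5) ∨
        m = 16 := by omega
      · exact twelve
      · exact thirteen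
      · exact add_mem (by norm_num) (self_mem (by norm_num)) (two_mem (n := 5) (by norm_num))
      · exact add_mem (by norm_num) (self_mem (by norm_num))
          (add_mem (by norm_num) (self_mem (by norm_num)) (self_mem (by norm_num)))
      · exact sixteen

end Pool.Agent.W2helper18.SOS
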