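import Pool.Agent.W2helper12.SOS.J1
import Pool.Agent.W2helper66.SOS.J2
import Pool.Agent.W2helper19.SOS.J3
import Pool.Agent.W2helper17.SOS.DatAlg
import Pool.Agent.W2helper4.SOS.J5
import Pool.Agent.W2helper22.SOSG.F
import Pool.Agent.W2helper18.SOS.J6
import Pool.Agent.W2helper18.SOS.J9a

/-!
# MP_ce7760_an : assembly of the main theorem from the pieces J1 - J9
-/

open MvPolynomial

namespace Pool.Agent.W2helper18.SOS

open Pool.Agent.W2helper74.SOS

theorem pC1 : C1 :=
  Pool.Agent.W2helper19.SOS.c1 Pool.Agent.W2helper12.SOS.pB1 Pool.Agent.W2helper12.SOS.pB3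
    Pool.Agent.W2helper66.SOS.b4 Pool.Agent.W2helper66.SOS.b5

theorem pC2 : C2 :=
  Pool.Agent.W2helper19.SOS.c2 Pool.Agent.W2helper12.SOS.pB1 Pool.Agent.W2helper12.SOS.pB2
    Pool.Agent.W2helper12.SOS.pB3 Pool.Agent.W2helper66.SOS.b4 Pool.Agent.W2helper66.SOS.b5
    Pool.Agent.W2helper12.SOS.pC2'

theorem pC3 : C3 :=
  Pool.Agent.W2helper19.SOS.c3 Pool.Agent.W2helper12.SOS.pB1 Pool.Agent.W2helper12.SOS.pB2
    Pool.Agent.W2helper12.SOS.pB3 Pool.Agent.W2helper66.SOS.b4 Pool.Agent.W2helper66.SOS.b5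

theorem pA4 : A4 :=
  Pool.Agent.W2helper4.SOS.a4 Pool.Agent.W2helper12.SOS.pB1 Pool.Agent.W2helper12.SOS.pB2
    Pool.Agent.W2helper12.SOS.pB3

theorem finV {n m r D : ℕ} (d : Dat n m r D) : Module.Finite ℂ d.V :=
  Module.Finite.iff_fg.mpr (Submodule.fg_span (Set.finite_range _))

theorem finE {n m r D : ℕ} (d : Dat n m r D) : Module.Finite ℂ d.E :=
  Module.Finite.iff_fg.mpr (Submodule.fg_span (Set.finite_range _))

theorem finrankV {n m r D : ℕ} (d : Dat n m r D) : Module.finrank ℂ d.V = m := by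
  unfold Dat.V
  exact (finrank_span_eq_card d.p_ind).trans (Fintype.card_fin m)

theorem finrankE {n m r D : ℕ} (d : Dat n m r D) : Module.finrank ℂ d.E = r := by
  unfold Dat.E
  exact (finrank_span_eq_card d.e_ind).trans (Fintype.card_fin r)

theorem homE {n m r D : ℕ} (d : Dat n m r D) : ∀ e ∈ d.E, e.IsHomogeneous D := by
  intro e he
  have h : d.E ≤ homogeneousSubmodule (Fin n) ℂ D := by
    refine Submodule.span_le.mpr ?_
    rintro _ ⟨i, rfl⟩
    exact d.e_hom i
  exact h he

/-- if `m = 0` then `r = 0` (for `n ≥ 1`) -/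
theorem pos_of {n m r D : ℕ} (d : Dat n m r D) (hn : 1 ≤ n) (hr : 1 ≤ r) : 1 ≤ m := by
  by_contra hm
  have hm0 : m = 0 := by omega
  obtain ⟨g, hgV, hgE⟩ := Pool.Agent.W2helper17.SOS.datAlg n m r D d
  have hV : g.V = ⊥ := by
    rw [hgV]
    have := finV d
    exact Submodule.finrank_eq_zero.mp (by rw [finrankV, hm0])
  have h0 : ∀ w : Fin n → ℂ, w ≠ 0 → g.a w = 0 := by
    intro w hw
    have : lf w * g.a w ∈ g.V := by
      rw [← g.spanV]
      exact Submodule.subset_span ⟨w, rfl⟩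
    rw [hV, Submodule.mem_bot] at this
    rcases mul_eq_zero.mp this with h | h
    · exact absurd h (Pool.Agent.W2helper19.SOS.lf_ne_zero hw)
    · exact h
  have h00 : g.a 0 = 0 := by
    let u : Fin n → ℂ := Pi.single ⟨0, hn⟩ 1
    have hu : u ≠ 0 := by
      intro h
      have := congrFun h ⟨0, hn⟩
      simp [u] at this
    obtain ⟨D', c, hc, ht⟩ := g.hom 0 u
    rw [← hc]
    have := Pool.Agent.W2helper66.SOS.coef (⊥ : Submodule ℂ (Pol n)) (D' + 1) c (by
      intro t
      rw [← ht t]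
      simp [h0 u hu]) D' (by omega)
    simpa using this
  have hE : g.E = ⊥ := by
    rw [← g.spanE]
    refine Submodule.span_eq_bot.mpr ?_
    rintro _ ⟨w, rfl⟩
    by_cases hw : w = 0
    · rw [hw]; exact h00
    · exact h0 w hw
  have : Module.finrank ℂ d.E = 0 := by
    rw [← hgE, hE]; simp
  rw [finrankE] at this
  omega

theorem tri_mono {a b : ℕ} (h : a ≤ b) : a * (a - 1) / 2 ≤ b * (b - 1) / 2 := by
  apply Nat.div_le_div_right
  exact Nat.mul_le_mul h (by omega)

theorem main1 (n m r D : ℕ) (d : Dat n m r D) (κ : ℕ) (hn : 4 ≤ n) (hκ : κ * (κ + 1) / 2 < n)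
    (hm : m + 4 < (κ + 2) * (n + 1 - κ)) : d.Psd := by
  by_contra hpsd
  have hF4 := f4 n m r D d hpsd
  have hr1 : κ + 2 ≤ r := by
    by_contra h
    have h1 : r ≤ κ + 1 := by omega
    have h2 := tri_mono h1
    have h3 : (κ + 1) * (κ + 1 - 1) / 2 = κ * (κ + 1) / 2 := by
      rw [Nat.add_sub_cancel, mul_comm]
    rw [h3] at h2
    omega
  have hr3 : 3 ≤ r := by
    by_contra h
    have h1 : r ≤ 2 := by omega
    have h2 := tri_mono h1
    norm_num at h2
    omega
  have hfV := finV d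
  have hfE := finE d
  have hmx : 3 ≤ mx d.E 2 := by
    by_contra h
    exact hpsd (Pool.Agent.W2helper22.SOSG.g' n m r D d
      (Pool.Agent.W2helper22.SOSG.g n D d.E hfE (homE d) (by rw [finrankE]; exact hr3)
        (by omega)))
  have hm1 : 1 ≤ m := pos_of d (by omega) (by omega)
  obtain ⟨g, hgV, hgE⟩ := Pool.Agent.W2helper17.SOS.datAlg n m r D d
  obtain ⟨-, -, -, hBn, hBm⟩ := Pool.Agent.W2helper12.SOS.pB1 n d.V hfV
  rw [finrankV] at hBn
  have hκn : κ ≤ n := by
    rcases Nat.eq_zero_or_pos κ with h | h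
    · omega
    · have : κ ≤ κ * (κ + 1) / 2 := by
        rw [Nat.le_div_iff_mul_le (by norm_num)]
        nlinarith
      omega
  have key := num n κ (fun j => mx d.V j) hn hκn hBm
    (by
      have := Pool.Agent.W2helper12.SOS.pC2' n d.V hfV 1
      rw [finrankV] at this
      omega)
    (fun j h1 h2 => pC1 n d.V hfV j h1 h2)
    (by
      intro j h1 h2 h3 h4 h5
      have := pC2 n g j (mx d.V (j + 1) - mx d.V j) h1 h2 h3 (by rw [hgV]) (by rw [hgV]; exact h5.symm)
      rw [hgE, finrankE] at this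
      omega)
    (by
      intro j h1 h2 h3
      by_contra h4
      have := pC3 n g j h1 h2 (by rw [hgV]; exact h3) (by rw [hgV]; omega)
      rw [hgE] at this
      omega)
    (by
      have := pA4 n m r D d 1 (by norm_num) (by omega)
      omega)
    (by
      have := pA4 n m r D d 2 (by norm_num) (by omega)
      omega)
  rw [hBn] at key
  omega

theorem main2 (n m : ℕ) (hn : 1 ≤ n) (hnm : ¬ (n = 3 ∧ m = 4)) (hS : m ∈ S1 n) (κ : ℕ) :
    ¬ (κ * n < m ∧ m + κ * (κ + 1) / 2 < (κ + 1) * n) := by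
  rintro ⟨h1, h2⟩
  have h3 : κ * (κ + 1) / 2 + 1 < n := by
    have : (κ + 1) * n = κ * n + n := by ring
    omega
  have hm1 : 1 ≤ m := by omega
  have hn2 : 2 ≤ n := by omega
  obtain ⟨r, D, ⟨d⟩⟩ := Pool.Agent.W2helper17.SOS.setUp n m hn2 hm1 hS
  have hfV := finV d
  have hfE := finE d
  obtain ⟨-, -, -, hBn, hBm⟩ := Pool.Agent.W2helper12.SOS.pB1 n d.V hfV
  rw [finrankV] at hBn
  have hM1 : 1 ≤ mx d.V 1 := by
    have := Pool.Agent.W2helper12.SOS.pC2' n d.V hfV 1
    rw [finrankV] at this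
    omega
  have hκ2 : κ ≤ κ * (κ + 1) / 2 := by
    rcases Nat.eq_zero_or_pos κ with h | h
    · omega
    · rw [Nat.le_div_iff_mul_le (by norm_num)]
      nlinarith
  rcases Nat.lt_or_ge n 4 with h4 | h4
  · -- small `n`
    have hA := pA4 n m r D d 1 (by norm_num) (by omega)
    have hκ1 : κ ≤ 1 := by omega
    interval_cases n
    · -- `n = 2`
      interval_cases κ
      · norm_num at h1 h2 hA
        omega
      · norm_num at h3
    · -- `n = 3`
      interval_cases κ
      · norm_num at h1 h2 hA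
        have hB1 := hBm 1
        have hC := pC1 3 d.V hfV 2 (by norm_num) (by norm_num)
        norm_num at hC hB1
        omega
      · norm_num at h1 h2
        omega
  · have hpsd : d.Psd := by
      refine main1 n m r D d κ h4 (by omega) ?_
      have e1 : (κ + 2) * (n + 1 - κ) + (κ + 2) * κ = (κ + 2) * (n + 1) := by
        rw [← mul_add]
        congr 1
        omega
      have e2 : κ * (κ + 1) / 2 * 2 = κ * (κ + 1) :=
        Nat.div_mul_cancel (Nat.even_mul_succ_self κ).two_dvd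
      nlinarith
    have hF5 := Pool.Agent.W2helper22.SOSG.f5 n m r D d hn hpsd
    have hF6 := Pool.Agent.W2helper22.SOSG.f6 n m r D d
    have hr : κ + 1 ≤ r := by
      by_contra h
      have h5 : r ≤ κ := by omega
      have h6 : n * r ≤ n * κ := Nat.mul_le_mul_left n h5
      have h7 : n * κ = κ * n := mul_comm _ _
      omega
    have key := num' n κ (fun j => mx d.V j) (by omega) hBm
      (fun j h5 h6 => pC1 n d.V hfV j h5 h6) (by omega)
    rw [hBn] at key
    omega

theorem main : Main :=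
  ⟨fun n m r D d κ hn hκ hm => main1 n m r D d κ hn hκ hm,
   fun n m hn hnm hS κ => main2 n m hn hnm hS κ⟩

end Pool.Agent.W2helper18.SOS
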